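import Pool.Agent.Mg.F6c6e33.G7132dd

open Pool.Agent.MP_6c6e33_an

/-- No ordering (over `ℕ` or over `ℤ`) of an overcomplete Gabor frame is the orbit of a bounded
operator. -/
theorem Pool.Agent.Results.MP_6c6e33_an.GaborUnbounded.result :
    ∀ (a b : ℝ), 0 < a → 0 < b → ∀ g : L2,
      IsFrame (gabor a b g) → ¬ IsRieszBasis (gabor a b g) →
      (∀ σ : ℕ ≃ ℤ × ℤ, ¬ HasBoundedRepresentation (gabor a b g ∘ σ)) ∧
      (∀ σ : ℤ ≃ ℤ × ℤ, ¬ HasBoundedRepresentation (gabor a b g ∘ σ)) :=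
  fun a b _ _ g hframe hover => gabor_main a b g hframe hover
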