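import Pool.Agent.MP_6c6e33_an.Wt.B

open Pool.Agent.MP_6c6e33_an

/-- No rescaling of an overcomplete Gabor frame with a finite second moment is a finite union of
orbits of one bounded operator. -/
theorem Pool.Agent.Results.MP_6c6e33_an.WeightedOrbits.result :
    ∀ (a b : ℝ), 0 < a → 0 < b → ∀ g : L2,
      IsFrame (gabor a b g) → ¬ IsRieszBasis (gabor a b g) →
      Summable (fun l : ℤ × ℤ =>
        ((l.1 : ℝ) ^ 2 + (l.2 : ℝ) ^ 2) * ‖inner ℂ (gabor a b g l) g‖ ^ 2) →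
      ∀ s : ℤ × ℤ → ℤ × ℤ, Function.Injective s → FinitelyManyOrbits s →
      ∀ c : ℤ × ℤ → ℂ, (∀ l, c l ≠ 0) → ¬ HasWeightedRepresentation (gabor a b g) s c := by
  intro a b _ _ g hf hr ks s hs hΦ c c0
  refine Wt.main _ hf hr (fun ν => shiftIso (ν.1 * b) (ν.2 * a)) _ (fun ν l => norm_exp_two_pi _)
    (shift_gabor a b g) (ks.of_nonneg_of_le (fun l => by positivity) fun l => ?_) s hs hΦ c c0
  rw [Wt.gabor_zero, Wt.nn]
  gcongr
  rcases max_choice l.1.natAbs l.2.natAbs with h | h <;>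
    simp [h, Nat.cast_natAbs, sq_nonneg]
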